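import Pool.Agent.H44.KMP3

open Pool.Agent.H44.KMP

namespace Pool.Agent.Results.MP_19659a_pr.GapTwo

/-- The spectral gap of the discrete KMP process with `k ≥ 2` particles on a weighted hypergraph
does not depend on `k`. -/
theorem result (n : ℕ) (hn : 2 ≤ n) (w : Finset (Fin n) → ℝ) (hw : ∀ B, 0 ≤ w B) :
    ∃ γ : ℝ, ∀ k, 2 ≤ k → IsLeast (spec k w) γ :=
  main hn hw

end Pool.Agent.Results.MP_19659a_pr.GapTwo
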